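import Mathlib

/-!
# The set `D_τ(S)` and the core: definitions of the statement
-/

set_option autoImplicit false

namespace Pool.H83.MV.CoreNotHull

open Finset

/-- The set `D_τ(S)`: points common to the convex hulls of the `τ` parts of some partition
of `S`. -/
def tverbergPoints {d : ℕ} (τ : ℕ) (S : Finset (Fin d → ℝ)) : Set (Fin d → ℝ) :=
  {p | ∃ P : Fin τ → Finset (Fin d → ℝ), (∀ i j, i ≠ j → Disjoint (P i) (P j)) ∧
    (∀ x, x ∈ S ↔ ∃ i, x ∈ P i) ∧ ∀ i, p ∈ convexHull ℝ (P i : Set (Fin d → ℝ))}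

/-- The `σ`-core of `S`: the intersection of the convex hulls of all `S \ T`, `|T| ≤ σ`. -/
def core {d : ℕ} (σ : ℕ) (S : Finset (Fin d → ℝ)) : Set (Fin d → ℝ) :=
  {p | ∀ T : Finset (Fin d → ℝ), T ⊆ S → T.card ≤ σ →
    p ∈ convexHull ℝ ((S : Set (Fin d → ℝ)) \ (T : Set (Fin d → ℝ)))}

end Pool.H83.MV.CoreNotHull
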