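import Mathlib
import Pool.Agent.H83.MV.CoreNotHullDefs

/-!
# The set `D_τ(S)` and the core: the proof
-/

set_option autoImplicit false

namespace Pool.H83.MV.CoreNotHull

open Finset

variable {d : ℕ}

/-- standard basis vector -/
def e (c : ℕ) : Fin d → ℝ := fun i => if i.val = c then 1 else 0

/-- sum of the first three basis vectors -/
def one : Fin d → ℝ := fun i => if i.val < 3 then 1 else 0

def f (c : ℕ) : Fin d → ℝ := fun i => e c i - one i

def K (k c : ℕ) : Fin d → ℝ := fun i => 3 * k * e c i - k * one i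

def w (m : ℕ) : Fin d → ℝ := fun i => e (m + 2) i - m * one i

noncomputable def S0 (n : ℕ) : Finset (Fin d → ℝ) :=
  (range 3).image e ∪ (range 3).image f ∪ ((Icc 1 n) ×ˢ (range 3)).image (fun p => K p.1 p.2)

noncomputable def SS (n M : ℕ) : Finset (Fin d → ℝ) := S0 n ∪ (Icc 1 M).image w

theorem mem_SS {n M : ℕ} {s : Fin d → ℝ} (hs : s ∈ SS n M) :
    (∃ c, c < 3 ∧ s = e c) ∨ (∃ c, c < 3 ∧ s = f c) ∨
      (∃ k, 1 ≤ k ∧ k ≤ n ∧ ∃ c, c < 3 ∧ s = K k c) ∨ (∃ m, 1 ≤ m ∧ m ≤ M ∧ s = w m) := by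
  rw [SS, S0] at hs
  simp only [mem_union, mem_image, mem_range, mem_product, mem_Icc, Prod.exists] at hs
  rcases hs with ((⟨c, hc, rfl⟩ | ⟨c, hc, rfl⟩) | ⟨k, c, ⟨⟨h1, h2⟩, hc⟩, rfl⟩) | ⟨m, ⟨h1, h2⟩, rfl⟩
  · exact Or.inl ⟨c, hc, rfl⟩
  · exact Or.inr (Or.inl ⟨c, hc, rfl⟩)
  · exact Or.inr (Or.inr (Or.inl ⟨k, h1, h2, c, hc, rfl⟩))
  · exact Or.inr (Or.inr (Or.inr ⟨m, h1, h2, rfl⟩))

theorem e_mem {n M c : ℕ} (hc : c < 3) : (e c : Fin d → ℝ) ∈ SS n M := by
  rw [SS, S0]
  simp only [mem_union, mem_image, mem_range]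
  exact Or.inl (Or.inl (Or.inl ⟨c, hc, rfl⟩))

theorem f_mem {n M c : ℕ} (hc : c < 3) : (f c : Fin d → ℝ) ∈ SS n M := by
  rw [SS, S0]
  simp only [mem_union, mem_image, mem_range]
  exact Or.inl (Or.inl (Or.inr ⟨c, hc, rfl⟩))

theorem K_mem {n M k c : ℕ} (h1 : 1 ≤ k) (h2 : k ≤ n) (hc : c < 3) :
    (K k c : Fin d → ℝ) ∈ SS n M := by
  rw [SS, S0]
  simp only [mem_union, mem_image, mem_range, mem_product, mem_Icc, Prod.exists]
  exact Or.inl (Or.inr ⟨k, c, ⟨⟨h1, h2⟩, hc⟩, rfl⟩)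

theorem w_mem {n M m : ℕ} (h1 : 1 ≤ m) (h2 : m ≤ M) : (w m : Fin d → ℝ) ∈ SS n M := by
  rw [SS]
  simp only [mem_union, mem_image, mem_Icc]
  exact Or.inr ⟨m, ⟨h1, h2⟩, rfl⟩

/-- coordinates of the points -/
theorem e_apply (c a : ℕ) (ha : a < d) : (e c : Fin d → ℝ) ⟨a, ha⟩ = if a = c then 1 else 0 := rfl

theorem one_apply (a : ℕ) (ha : a < d) (ha3 : a < 3) : (one : Fin d → ℝ) ⟨a, ha⟩ = 1 := by
  simp [one, ha3]

theorem f_apply (c a : ℕ) (ha : a < d) (ha3 : a < 3) :
    (f c : Fin d → ℝ) ⟨a, ha⟩ = (if a = c then 1 else 0) - 1 := by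
  rw [f, e_apply, one_apply a ha ha3]

theorem K_apply (k c a : ℕ) (ha : a < d) (ha3 : a < 3) :
    (K k c : Fin d → ℝ) ⟨a, ha⟩ = 3 * k * (if a = c then 1 else 0) - k := by
  rw [K, e_apply, one_apply a ha ha3, mul_one]

theorem w_apply (m a : ℕ) (hm : 1 ≤ m) (ha : a < d) (ha3 : a < 3) :
    (w m : Fin d → ℝ) ⟨a, ha⟩ = -m := by
  rw [w, e_apply, one_apply a ha ha3, if_neg (by omega)]
  ring

/-- If a subset `P` of the configuration has no point with positive `a`-coordinate and misses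
`e b`, then its convex hull misses the points whose first three coordinates vanish. -/
theorem separate {n M : ℕ} (hd : 3 ≤ d) {a b c : ℕ} (ha : a < 3) (hb : b < 3) (hc : c < 3)
    (hab : a ≠ b) (hac : a ≠ c) (hbc : b ≠ c) (P : Finset (Fin d → ℝ)) (hP : P ⊆ SS n M)
    (hneg : ∀ s ∈ P, s ⟨a, by omega⟩ ≤ 0) (hmiss : e b ∉ P) (q : Fin d → ℝ)
    (hq : q ∈ convexHull ℝ (P : Set (Fin d → ℝ))) :
    6 * q ⟨a, by omega⟩ + 2 * q ⟨b, by omega⟩ - q ⟨c, by omega⟩ < 0 := by
  have hconv : Convex ℝ {s : Fin d → ℝ |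
      6 * s ⟨a, by omega⟩ + 2 * s ⟨b, by omega⟩ - s ⟨c, by omega⟩ < 0} := by
    intro x hx y hy u v hu hv huv
    simp only [Set.mem_ofPred_eq, Pi.add_apply, Pi.smul_apply, smul_eq_mul] at hx hy ⊢
    rcases lt_or_eq_of_le hu with h | h
    · nlinarith
    · have : v = 1 := by linarith
      rw [← h, this]
      linarith
  refine convexHull_min ?_ hconv hq
  intro s hs
  have hs' : s ∈ P := hs
  have h0 := hneg s hs'
  simp only [Set.mem_ofPred_eq]
  rcases mem_SS (hP hs') with ⟨j, hj, rfl⟩ | ⟨j, hj, rfl⟩ | ⟨k, hk, _, j, hj, rfl⟩ | ⟨m, hm, _, rfl⟩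
  · -- s = e j, j ≠ a, j ≠ b
    have hja : j ≠ a := by
      rintro rfl
      rw [e_apply, if_pos rfl] at h0
      linarith
    have hjb : j ≠ b := by
      rintro rfl
      exact hmiss hs'
    have hjc : j = c := by omega
    subst hjc
    rw [e_apply, e_apply, e_apply, if_neg hac, if_neg hbc, if_pos rfl]
    norm_num
  · rw [f_apply _ _ _ ha, f_apply _ _ _ hb, f_apply _ _ _ hc]
    rcases (show j = a ∨ j = b ∨ j = c by omega) with h | h | h
    · subst h
      rw [if_pos rfl, if_neg hab.symm, if_neg hac.symm]; norm_num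
    · subst h
      rw [if_pos rfl, if_neg hab, if_neg hbc.symm]; norm_num
    · subst h
      rw [if_pos rfl, if_neg hac, if_neg hbc]; norm_num
  · have hk' : (1 : ℝ) ≤ k := by exact_mod_cast hk
    rw [K_apply _ _ _ _ ha] at h0
    rw [K_apply _ _ _ _ ha, K_apply _ _ _ _ hb, K_apply _ _ _ _ hc]
    rcases (show j = a ∨ j = b ∨ j = c by omega) with h | h | h
    · subst h
      rw [if_pos rfl] at h0
      linarith
    · subst h
      rw [if_pos rfl, if_neg hab, if_neg hbc.symm]; linarith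
    · subst h
      rw [if_pos rfl, if_neg hac, if_neg hbc]; linarith
  · have hm' : (1 : ℝ) ≤ m := by exact_mod_cast hm
    rw [w_apply _ _ hm _ ha, w_apply _ _ hm _ hb, w_apply _ _ hm _ hc]
    linarith

/-- At most `n + 1` points have positive `a`-coordinate. -/
theorem pos_card {n M : ℕ} (hd : 3 ≤ d) {a : ℕ} (ha : a < 3) :
    ((SS n M : Finset (Fin d → ℝ)).filter (fun s => 0 < s ⟨a, by omega⟩)).card ≤ n + 1 := by
  have hsub : (SS n M : Finset (Fin d → ℝ)).filter (fun s => 0 < s ⟨a, by omega⟩) ⊆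
      insert (e a) ((Icc 1 n).image (fun k => K k a)) := by
    intro s hs
    rw [mem_filter] at hs
    obtain ⟨hs, hpos⟩ := hs
    rw [mem_insert, mem_image]
    rcases mem_SS hs with ⟨j, hj, rfl⟩ | ⟨j, hj, rfl⟩ | ⟨k, hk, hkn, j, hj, rfl⟩ | ⟨m, hm, _, rfl⟩
    · rw [e_apply] at hpos
      split_ifs at hpos with h
      · left; rw [h]
      · exact absurd hpos (lt_irrefl _)
    · rw [f_apply _ _ _ ha] at hpos
      split_ifs at hpos <;> norm_num at hpos
    · rw [K_apply _ _ _ _ ha] at hpos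
      split_ifs at hpos with h
      · right; exact ⟨k, by rw [mem_Icc]; exact ⟨hk, hkn⟩, by rw [h]⟩
      · have hk' : (1 : ℝ) ≤ k := by exact_mod_cast hk
        exfalso; linarith
    · rw [w_apply _ _ hm _ ha] at hpos
      have hm' : (1 : ℝ) ≤ m := by exact_mod_cast hm
      exfalso; linarith
  refine (card_le_card hsub).trans ((card_insert_le _ _).trans ?_)
  have := (card_image_le (s := Icc 1 n) (f := fun k => (K k a : Fin d → ℝ)))
  rw [Nat.card_Icc] at this
  omega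

/-- Pigeonhole: some part has no point in a small set. -/
theorem pigeon {τ : ℕ} (P : Fin τ → Finset (Fin d → ℝ))
    (hdisj : ∀ i j, i ≠ j → Disjoint (P i) (P j)) (X : Finset (Fin d → ℝ)) (hX : X.card < τ) :
    ∃ i, ∀ s ∈ P i, s ∉ X := by
  by_contra hcon
  push Not at hcon
  choose g hg1 hg2 using hcon
  have hinj : Function.Injective g := by
    intro i j hij
    by_contra hne
    exact (disjoint_left.1 (hdisj i j hne)) (hg1 i) (hij ▸ hg1 j)
  have h : (univ.image g).card ≤ X.card := card_le_card (by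
    intro s hs
    rw [mem_image] at hs
    obtain ⟨i, _, rfl⟩ := hs
    exact hg2 i)
  rw [card_image_of_injective _ hinj, card_univ, Fintype.card_fin] at h
  omega

theorem hull_subset_core (τ : ℕ) (hτ : 1 ≤ τ) (S : Finset (Fin d → ℝ)) :
    convexHull ℝ (tverbergPoints τ S) ⊆ core (τ - 1) S := by
  have hconv : Convex ℝ (core (τ - 1) S) := by
    intro x hx y hy u v hu hv huv T hT hTc
    exact convex_convexHull ℝ _ (hx T hT hTc) (hy T hT hTc) hu hv huv
  refine convexHull_min ?_ hconv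
  rintro p ⟨P, hdisj, hcov, hp⟩ T hT hTc
  obtain ⟨i, hi⟩ := pigeon P hdisj T (by omega)
  refine convexHull_mono ?_ (hp i)
  intro s hs
  exact ⟨(hcov s).2 ⟨i, hs⟩, hi s hs⟩

/-- No Tverberg point projects to zero, and all have non-positive first coordinates. -/
theorem tverberg_neg {n M : ℕ} (hd : 3 ≤ d) (q : Fin d → ℝ)
    (hq : q ∈ tverbergPoints (n + 2) (SS n M : Finset (Fin d → ℝ))) :
    q ⟨0, by omega⟩ ≤ 0 ∧ q ⟨1, by omega⟩ ≤ 0 ∧ q ⟨2, by omega⟩ ≤ 0 ∧
      q ⟨0, by omega⟩ + q ⟨1, by omega⟩ + q ⟨2, by omega⟩ < 0 := by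
  obtain ⟨P, hdisj, hcov, hp⟩ := hq
  have hsub : ∀ i, P i ⊆ SS n M := fun i s hs => (hcov s).2 ⟨i, hs⟩
  have hpart : ∀ a (ha : a < 3), ∃ i, ∀ s ∈ P i, s ⟨a, by omega⟩ ≤ 0 := by
    intro a ha
    obtain ⟨i, hi⟩ := pigeon P hdisj _ (lt_of_le_of_lt (pos_card (n := n) (M := M) hd ha)
      (by omega))
    refine ⟨i, fun s hs => ?_⟩
    have := hi s hs
    rw [mem_filter, not_and] at this
    exact not_lt.1 (this (hsub i hs))
  have hle : ∀ a (ha : a < 3), q ⟨a, by omega⟩ ≤ 0 := by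
    intro a ha
    obtain ⟨i, hi⟩ := hpart a ha
    have hconv : Convex ℝ {s : Fin d → ℝ | s ⟨a, by omega⟩ ≤ 0} := by
      intro x hx y hy u v hu hv huv
      simp only [Set.mem_ofPred_eq, Pi.add_apply, Pi.smul_apply, smul_eq_mul] at hx hy ⊢
      nlinarith
    exact convexHull_min (fun s hs => hi s hs) hconv (hp i)
  have h0 := hle 0 (by omega)
  have h1 := hle 1 (by omega)
  have h2 := hle 2 (by omega)
  refine ⟨h0, h1, h2, ?_⟩
  by_contra hcon
  push Not at hcon
  have z0 : q ⟨0, by omega⟩ = 0 := by linarith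
  have z1 : q ⟨1, by omega⟩ = 0 := by linarith
  have z2 : q ⟨2, by omega⟩ = 0 := by linarith
  obtain ⟨i, hi⟩ := hpart 0 (by omega)
  obtain ⟨j, hj⟩ := hpart 1 (by omega)
  -- `e 2` lies in both parts
  have h2i : e 2 ∈ P i := by
    by_contra hmiss
    have := separate (n := n) (M := M) hd (a := 0) (b := 2) (c := 1) (by omega) (by omega)
      (by omega) (by omega) (by omega) (by omega) (P i) (hsub i) hi hmiss q (hp i)
    rw [z0, z1, z2] at this
    linarith
  have h2j : e 2 ∈ P j := by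
    by_contra hmiss
    have := separate (n := n) (M := M) hd (a := 1) (b := 2) (c := 0) (by omega) (by omega)
      (by omega) (by omega) (by omega) (by omega) (P j) (hsub j) hj hmiss q (hp j)
    rw [z0, z1, z2] at this
    linarith
  have h0j : e 0 ∈ P j := by
    by_contra hmiss
    have := separate (n := n) (M := M) hd (a := 1) (b := 0) (c := 2) (by omega) (by omega)
      (by omega) (by omega) (by omega) (by omega) (P j) (hsub j) hj hmiss q (hp j)
    rw [z0, z1, z2] at this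
    linarith
  have hij : i = j := by
    by_contra hne
    exact disjoint_left.1 (hdisj i j hne) h2i h2j
  subst hij
  have := hi _ h0j
  rw [e_apply, if_pos rfl] at this
  linarith

theorem zero_notMem_hull {n M : ℕ} (hd : 3 ≤ d) :
    (0 : Fin d → ℝ) ∉ convexHull ℝ (tverbergPoints (n + 2) (SS n M : Finset (Fin d → ℝ))) := by
  intro h
  have hconv : Convex ℝ {s : Fin d → ℝ |
      s ⟨0, by omega⟩ + s ⟨1, by omega⟩ + s ⟨2, by omega⟩ < 0} := by
    intro x hx y hy u v hu hv huv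
    simp only [Set.mem_ofPred_eq, Pi.add_apply, Pi.smul_apply, smul_eq_mul] at hx hy ⊢
    rcases lt_or_eq_of_le hu with h | h
    · nlinarith
    · have : v = 1 := by linarith
      rw [← h, this]
      linarith
  have h0 : (0 : Fin d → ℝ) ∈ {s : Fin d → ℝ |
      s ⟨0, by omega⟩ + s ⟨1, by omega⟩ + s ⟨2, by omega⟩ < 0} :=
    convexHull_min (fun s hs => (tverberg_neg hd s hs).2.2.2) hconv h
  have h1 : (0 : ℝ) + 0 + 0 < 0 := h0
  norm_num at h1

theorem zero_of_three {X : Set (Fin d → ℝ)} {u v t : Fin d → ℝ} (hu : u ∈ X) (hv : v ∈ X)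
    (ht : t ∈ X) (hsum : u + v + t = 0) : (0 : Fin d → ℝ) ∈ convexHull ℝ X := by
  have h1 := subset_convexHull ℝ X hu
  have h2 := subset_convexHull ℝ X hv
  have h3 := subset_convexHull ℝ X ht
  have h4 := convex_convexHull ℝ X h1 h2 (a := 1 / 2) (b := 1 / 2) (by norm_num) (by norm_num)
    (by norm_num)
  have h5 := convex_convexHull ℝ X h4 h3 (a := 2 / 3) (b := 1 / 3) (by norm_num) (by norm_num)
    (by norm_num)
  have : (2 / 3 : ℝ) • ((1 / 2 : ℝ) • u + (1 / 2 : ℝ) • v) + (1 / 3 : ℝ) • t = 0 := by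
    have : (2 / 3 : ℝ) • ((1 / 2 : ℝ) • u + (1 / 2 : ℝ) • v) + (1 / 3 : ℝ) • t =
        (1 / 3 : ℝ) • (u + v + t) := by
      module
    rw [this, hsum, smul_zero]
  rwa [this] at h5

theorem sum_K (k : ℕ) : (K k 0 : Fin d → ℝ) + K k 1 + K k 2 = 0 := by
  funext i
  simp only [Pi.add_apply, K, e, one, Pi.zero_apply]
  rcases (show i.val = 0 ∨ i.val = 1 ∨ i.val = 2 ∨ 3 ≤ i.val by omega) with h | h | h | h
  · simp [h]; ring
  · simp [h]; ring
  · simp [h]; ring
  · rw [if_neg (by omega), if_neg (by omega), if_neg (by omega), if_neg (by omega)]; ring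

theorem sum_T {a b c : ℕ} (ha : a < 3) (hb : b < 3) (hc : c < 3)
    (hab : a ≠ b) (hac : a ≠ c) (hbc : b ≠ c) : (e b : Fin d → ℝ) + e c + f a = 0 := by
  funext i
  simp only [Pi.add_apply, f, e, one, Pi.zero_apply]
  rcases (show i.val = a ∨ i.val = b ∨ i.val = c ∨ 3 ≤ i.val by omega) with h | h | h | h
  · rw [h, if_neg hab, if_neg hac, if_pos rfl, if_pos ha]; ring
  · rw [h, if_pos rfl, if_neg hbc, if_neg hab.symm, if_pos hb]; ring
  · rw [h, if_neg hbc.symm, if_pos rfl, if_neg hac.symm, if_pos hc]; ring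
  · rw [if_neg (by omega), if_neg (by omega), if_neg (by omega), if_neg (by omega)]; ring

/-- level -/
def lev (hd : 3 ≤ d) (s : Fin d → ℝ) : ℝ :=
  s ⟨0, by omega⟩ ^ 2 + s ⟨1, by omega⟩ ^ 2 + s ⟨2, by omega⟩ ^ 2

theorem lev_e (hd : 3 ≤ d) {c : ℕ} (hc : c < 3) : lev hd (e c) = 1 := by
  rw [lev, e_apply, e_apply, e_apply]
  interval_cases c <;> norm_num

theorem lev_f (hd : 3 ≤ d) {c : ℕ} (hc : c < 3) : lev hd (f c) = 2 := by
  rw [lev, f_apply _ _ _ (by omega), f_apply _ _ _ (by omega), f_apply _ _ _ (by omega)]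
  interval_cases c <;> norm_num

theorem lev_K (hd : 3 ≤ d) (k : ℕ) {c : ℕ} (hc : c < 3) : lev hd (K k c) = 6 * k ^ 2 := by
  rw [lev, K_apply _ _ _ _ (by omega), K_apply _ _ _ _ (by omega), K_apply _ _ _ _ (by omega)]
  interval_cases c <;> norm_num <;> ring

theorem zero_mem_core {n M : ℕ} (hd : 3 ≤ d) :
    (0 : Fin d → ℝ) ∈ core (n + 1) (SS n M : Finset (Fin d → ℝ)) := by
  intro R hR hRc
  by_contra hcon
  -- every block meets R
  have hblock : ∀ k, 1 ≤ k → k ≤ n → ∃ c, c < 3 ∧ (K k c : Fin d → ℝ) ∈ R := by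
    intro k h1 h2
    by_contra hno
    push Not at hno
    exact hcon (zero_of_three (u := K k 0) (v := K k 1) (t := K k 2)
      ⟨K_mem h1 h2 (by omega), hno 0 (by omega)⟩ ⟨K_mem h1 h2 (by omega), hno 1 (by omega)⟩
      ⟨K_mem h1 h2 (by omega), hno 2 (by omega)⟩ (sum_K k))
  have htri : ∀ a b c, a < 3 → b < 3 → c < 3 → a ≠ b → a ≠ c → b ≠ c →
      ((e b : Fin d → ℝ) ∈ R ∨ (e c : Fin d → ℝ) ∈ R ∨ (f a : Fin d → ℝ) ∈ R) := by
    intro a b c ha hb hc hab hac hbc
    by_contra hno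
    push Not at hno
    exact hcon (zero_of_three (u := e b) (v := e c) (t := f a)
      ⟨e_mem hb, hno.1⟩ ⟨e_mem hc, hno.2.1⟩ ⟨f_mem ha, hno.2.2⟩ (sum_T ha hb hc hab hac hbc))
  -- count
  have hsplit : (R.filter (fun s => lev hd s < 3)).card +
      (R.filter (fun s => ¬ lev hd s < 3)).card = R.card :=
    card_filter_add_card_filter_not _
  have hbig : n ≤ (R.filter (fun s => ¬ lev hd s < 3)).card := by
    have himg : (Icc 1 n).image (fun k : ℕ => (6 * (k : ℝ) ^ 2)) ⊆
        (R.filter (fun s => ¬ lev hd s < 3)).image (lev hd) := by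
      intro x hx
      rw [mem_image] at hx
      obtain ⟨k, hk, rfl⟩ := hx
      rw [mem_Icc] at hk
      obtain ⟨c, hc, hcR⟩ := hblock k hk.1 hk.2
      rw [mem_image]
      refine ⟨K k c, ?_, lev_K hd k hc⟩
      rw [mem_filter]
      refine ⟨hcR, ?_⟩
      rw [lev_K hd k hc, not_lt]
      have hk' : (1 : ℝ) ≤ k := by exact_mod_cast hk.1
      nlinarith
    have hinj : Set.InjOn (fun k : ℕ => (6 * (k : ℝ) ^ 2)) (Icc 1 n : Finset ℕ) := by
      intro x _ y _ hxy
      have h6 : (x : ℝ) ^ 2 = (y : ℝ) ^ 2 := by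
        simp only at hxy
        linarith
      have h7 := (sq_eq_sq₀ (Nat.cast_nonneg x) (Nat.cast_nonneg y)).1 h6
      exact_mod_cast h7
    have h := (card_le_card himg).trans card_image_le
    rw [card_image_of_injOn hinj, Nat.card_Icc] at h
    omega
  have hsmall : (R.filter (fun s => lev hd s < 3)).card ≤ 1 := by omega
  rw [card_le_one] at hsmall
  have hE : ∀ c, c < 3 → (e c : Fin d → ℝ) ∈ R → (e c : Fin d → ℝ) ∈
      R.filter (fun s => lev hd s < 3) := by
    intro c hc h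
    rw [mem_filter, lev_e hd hc]
    exact ⟨h, by norm_num⟩
  have hF : ∀ c, c < 3 → (f c : Fin d → ℝ) ∈ R → (f c : Fin d → ℝ) ∈
      R.filter (fun s => lev hd s < 3) := by
    intro c hc h
    rw [mem_filter, lev_f hd hc]
    exact ⟨h, by norm_num⟩
  have hEE : ∀ b c, b < 3 → c < 3 → (e b : Fin d → ℝ) ∈ R → (e c : Fin d → ℝ) ∈ R → b = c := by
    intro b c hb hc h1 h2
    have h3 := hsmall _ (hE b hb h1) _ (hE c hc h2)
    have h4 := congrFun h3 ⟨b, by omega⟩
    rw [e_apply, e_apply, if_pos rfl] at h4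
    split_ifs at h4 with h5
    · exact h5
    · norm_num at h4
  have hEF : ∀ b c, b < 3 → c < 3 → (e b : Fin d → ℝ) ∈ R → (f c : Fin d → ℝ) ∉ R := by
    intro b c hb hc h1 h2
    have h3 := hsmall _ (hE b hb h1) _ (hF c hc h2)
    have h4 := congrArg (lev hd) h3
    rw [lev_e hd hb, lev_f hd hc] at h4
    norm_num at h4
  have hFF : ∀ b c, b < 3 → c < 3 → (f b : Fin d → ℝ) ∈ R → (f c : Fin d → ℝ) ∈ R → b = c := by
    intro b c hb hc h1 h2
    have h3 := hsmall _ (hF b hb h1) _ (hF c hc h2)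
    have h4 := congrFun h3 ⟨b, by omega⟩
    rw [f_apply _ _ _ hb, f_apply _ _ _ hb, if_pos rfl] at h4
    split_ifs at h4 with h5
    · exact h5
    · norm_num at h4
  have noE : ∀ a b c, a < 3 → b < 3 → c < 3 → a ≠ b → a ≠ c → b ≠ c →
      (e a : Fin d → ℝ) ∉ R := by
    intro a b c ha hb hc hab hac hbc h
    rcases htri a b c ha hb hc hab hac hbc with h1 | h1 | h1
    · exact hab (hEE a b ha hb h h1)
    · exact hac (hEE a c ha hc h h1)
    · exact hEF a a ha ha h h1
  have n0 := noE 0 1 2 (by omega) (by omega) (by omega) (by omega) (by omega) (by omega)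
  have n1 := noE 1 0 2 (by omega) (by omega) (by omega) (by omega) (by omega) (by omega)
  have n2 := noE 2 0 1 (by omega) (by omega) (by omega) (by omega) (by omega) (by omega)
  have g0 : (f 0 : Fin d → ℝ) ∈ R := by
    rcases htri 0 1 2 (by omega) (by omega) (by omega) (by omega) (by omega) (by omega)
      with h1 | h1 | h1
    · exact absurd h1 n1
    · exact absurd h1 n2
    · exact h1
  have g1 : (f 1 : Fin d → ℝ) ∈ R := by
    rcases htri 1 0 2 (by omega) (by omega) (by omega) (by omega) (by omega) (by omega)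
      with h1 | h1 | h1
    · exact absurd h1 n0
    · exact absurd h1 n2
    · exact h1
  exact absurd (hFF 0 1 (by omega) (by omega) g0 g1) (by omega)

theorem card_S0 (n : ℕ) : (S0 n : Finset (Fin d → ℝ)).card ≤ 6 + 3 * n := by
  rw [S0]
  have h1 := card_image_le (s := range 3) (f := (e : ℕ → Fin d → ℝ))
  have h2 := card_image_le (s := range 3) (f := (f : ℕ → Fin d → ℝ))
  have h3 := card_image_le (s := (Icc 1 n) ×ˢ (range 3))
    (f := fun p : ℕ × ℕ => (K p.1 p.2 : Fin d → ℝ))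
  rw [card_product, Nat.card_Icc] at h3
  rw [card_range] at h1 h2 h3
  have h4 := card_union_le ((range 3).image (e : ℕ → Fin d → ℝ)) ((range 3).image f)
  have h5 := card_union_le ((range 3).image (e : ℕ → Fin d → ℝ) ∪ (range 3).image f)
    (((Icc 1 n) ×ˢ (range 3)).image (fun p : ℕ × ℕ => (K p.1 p.2 : Fin d → ℝ)))
  omega

theorem card_SS (hd : 3 ≤ d) (n M : ℕ) :
    (SS n M : Finset (Fin d → ℝ)).card = (S0 n : Finset (Fin d → ℝ)).card + M := by
  have hinj : Set.InjOn (w : ℕ → Fin d → ℝ) (Icc 1 M : Finset ℕ) := by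
    intro x hx y hy hxy
    have hx' := mem_Icc.1 (show x ∈ Icc 1 M from hx)
    have hy' := mem_Icc.1 (show y ∈ Icc 1 M from hy)
    have h := congrFun hxy ⟨0, by omega⟩
    rw [w_apply _ _ hx'.1 _ (by omega), w_apply _ _ hy'.1 _ (by omega)] at h
    have h' : (x : ℝ) = y := by linarith
    exact_mod_cast h'
  have hdisj : Disjoint (S0 n : Finset (Fin d → ℝ)) ((Icc 1 M).image w) := by
    rw [disjoint_left]
    intro s hs hw
    rw [mem_image] at hw
    obtain ⟨m, hm, rfl⟩ := hw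
    rw [mem_Icc] at hm
    have hm' : (1 : ℝ) ≤ m := by exact_mod_cast hm.1
    have hneg : ∀ a (ha : a < 3), (w m : Fin d → ℝ) ⟨a, by omega⟩ < 0 := by
      intro a ha
      rw [w_apply _ _ hm.1 _ ha]; linarith
    rw [S0] at hs
    simp only [mem_union, mem_image, mem_range, mem_product, mem_Icc, Prod.exists] at hs
    rcases hs with (⟨c, hc, h⟩ | ⟨c, hc, h⟩) | ⟨k, c, ⟨⟨h1, h2⟩, hc⟩, h⟩
    · have := hneg c hc
      rw [← h, e_apply, if_pos rfl] at this
      linarith
    · have := hneg c hc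
      rw [← h, f_apply _ _ _ hc, if_pos rfl] at this
      linarith
    · have := hneg c hc
      have hk : (1 : ℝ) ≤ k := by exact_mod_cast h1
      rw [← h, K_apply _ _ _ _ hc, if_pos rfl] at this
      linarith
  rw [SS, card_union_of_disjoint hdisj, card_image_of_injOn hinj, Nat.card_Icc]
  omega

theorem span_SS (hd : 3 ≤ d) (n M : ℕ) (hM : d - 3 ≤ M) :
    affineSpan ℝ ((SS n M : Finset (Fin d → ℝ)) : Set (Fin d → ℝ)) = ⊤ := by
  have h0 : (0 : Fin d → ℝ) ∈ affineSpan ℝ ((SS n M : Finset (Fin d → ℝ)) : Set (Fin d → ℝ)) := by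
    have h := zero_of_three (X := ((SS n M : Finset (Fin d → ℝ)) : Set (Fin d → ℝ)))
      (u := e 1) (v := e 2) (t := f 0) (e_mem (by omega)) (e_mem (by omega)) (f_mem (by omega))
      (sum_T (by omega) (by omega) (by omega) (by omega) (by omega) (by omega))
    exact convexHull_subset_affineSpan _ h
  rw [← affineSpan_insert_eq_affineSpan ℝ h0]
  apply SetLike.coe_injective
  rw [affineSpan_insert_zero]
  have hspan : Submodule.span ℝ ((SS n M : Finset (Fin d → ℝ)) : Set (Fin d → ℝ)) = ⊤ := by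
    rw [eq_top_iff, ← (Pi.basisFun ℝ (Fin d)).span_eq, Submodule.span_le]
    rintro _ ⟨i, rfl⟩
    have hsingle : (Pi.basisFun ℝ (Fin d)) i = e i.val := by
      funext j
      rw [Pi.basisFun_apply, e]
      by_cases h : j = i
      · subst h; simp
      · rw [Pi.single_eq_of_ne h, if_neg (fun h' => h (Fin.ext h'))]
    rw [hsingle]
    have he : ∀ c, c < 3 → (e c : Fin d → ℝ) ∈
        Submodule.span ℝ ((SS n M : Finset (Fin d → ℝ)) : Set (Fin d → ℝ)) :=
      fun c hc => Submodule.subset_span (e_mem hc)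
    rcases Nat.lt_or_ge i.val 3 with hi | hi
    · exact he _ hi
    · have hw : (w (i.val - 2) : Fin d → ℝ) ∈
          Submodule.span ℝ ((SS n M : Finset (Fin d → ℝ)) : Set (Fin d → ℝ)) :=
        Submodule.subset_span (w_mem (by omega) (by have := i.isLt; omega))
      have hsum : (e i.val : Fin d → ℝ) = w (i.val - 2) +
          ((i.val - 2 : ℕ) : ℝ) • (e 0 + e 1 + e 2) := by
        funext j
        simp only [Pi.add_apply, Pi.smul_apply, smul_eq_mul, w]
        rw [show i.val - 2 + 2 = i.val by omega]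
        have : (one j : ℝ) = e 0 j + e 1 j + e 2 j := by
          simp only [one, e]
          rcases (show j.val = 0 ∨ j.val = 1 ∨ j.val = 2 ∨ 3 ≤ j.val by omega) with h | h | h | h
          · simp [h]
          · simp [h]
          · simp [h]
          · rw [if_neg (by omega), if_neg (by omega), if_neg (by omega), if_neg (by omega)]; ring
        rw [this]; ring
      rw [hsum]
      exact Submodule.add_mem _ hw (Submodule.smul_mem _ _
        (Submodule.add_mem _ (Submodule.add_mem _ (he 0 (by omega)) (he 1 (by omega)))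
          (he 2 (by omega))))
  rw [hspan]
  rfl

/-- For all `d ≥ 3`, `τ ≥ 2` with `(d, τ) ≠ (3, 2)` there is a set `S` of exactly
`(τ-1)(d+1)+1` points of `ℝ^d` for which `conv D_τ(S)` is a proper subset of the `(τ-1)`-core;
for `τ ≥ 3` the set `S` affinely spans `ℝ^d`. -/
theorem result (d τ : ℕ) (hd : 3 ≤ d) (hτ : 2 ≤ τ) (hne : ¬ (d = 3 ∧ τ = 2)) :
    ∃ S : Finset (Fin d → ℝ), S.card = (τ - 1) * (d + 1) + 1 ∧
      (3 ≤ τ → affineSpan ℝ (S : Set (Fin d → ℝ)) = ⊤) ∧
      convexHull ℝ (tverbergPoints τ S) ⊂ core (τ - 1) S := by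
  obtain ⟨n, rfl⟩ : ∃ n, τ = n + 2 := ⟨τ - 2, by omega⟩
  obtain ⟨k, rfl⟩ : ∃ k, d = k + 3 := ⟨d - 3, by omega⟩
  have hcard0 := card_S0 (d := k + 3) n
  have hexp : (n + 2 - 1) * (k + 3 + 1) + 1 = n * k + 4 * n + k + 5 := by
    rw [show n + 2 - 1 = n + 1 by omega]; ring
  have hpos : 1 ≤ n + k := by
    by_contra h
    exact hne ⟨by omega, by omega⟩
  set M := (n + 2 - 1) * (k + 3 + 1) + 1 - (S0 n : Finset (Fin (k + 3) → ℝ)).card with hM
  have hge : 6 + 3 * n ≤ n * k + 4 * n + k + 5 := by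
    have : 0 ≤ n * k := Nat.zero_le _
    omega
  refine ⟨SS n M, ?_, ?_, ?_⟩
  · rw [card_SS hd]
    omega
  · intro h3
    apply span_SS hd
    have hk : k ≤ n * k := Nat.le_mul_of_pos_left k (by omega)
    omega
  · refine ⟨hull_subset_core (n + 2) (by omega) _, ?_⟩
    intro h
    exact zero_notMem_hull hd (h (zero_mem_core hd))

end Pool.H83.MV.CoreNotHull
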